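import Pool.Agent.W464.WLP.Defs

/-!
# Task L4a of the project WLP
-/

set_option autoImplicit false

open MvPolynomial

namespace Pool.Agent.W880.WLP

/-- homogeneity in terms of values -/
lemma eval_smul_hom {K : Type*} [Field K] {ι : Type*} (p : MvPolynomial ι K) (n : ℕ)
    (hp : p.IsHomogeneous n) (c : K) (y : ι → K) :
    eval (fun i => c * y i) p = c ^ n * eval y p := by
  rw [eval_eq, eval_eq, Finset.mul_sum]
  refine Finset.sum_congr rfl fun d hd => ?_
  have h1 : ∑ i ∈ d.support, d i = n := by
    have := hp (mem_support_iff.1 hd)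
    rw [Finsupp.weight_apply] at this
    simpa [Finsupp.sum] using this
  have h2 : ∏ i ∈ d.support, (c * y i) ^ d i = c ^ n * ∏ i ∈ d.support, y i ^ d i := by
    simp_rw [mul_pow]
    rw [Finset.prod_mul_distrib, Finset.prod_pow_eq_pow_sum, h1]
  rw [h2]; ring

/-- a form which vanishes on the affine chart is zero -/
lemma eq_zero_of_chart {K : Type*} [Field K] [Infinite K] {m n : ℕ} (p : MvPolynomial (Fin (m + 1)) K)
    (hp : p.IsHomogeneous n) (h : ∀ x : Fin m → K, eval (Fin.cons 1 x : Fin (m + 1) → K) p = 0) :
    p = 0 := by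
  have h1 : (X 0 : MvPolynomial (Fin (m + 1)) K) * p = 0 := by
    apply MvPolynomial.funext
    intro y
    rw [map_mul, eval_X, map_zero]
    rcases eq_or_ne (y 0) 0 with h0 | h0
    · rw [h0, zero_mul]
    · have h2 : y = fun i => y 0 * (Fin.cons 1 (fun i => y (Fin.succ i) / y 0) : Fin (m + 1) → K) i := by
        funext i
        refine Fin.cases ?_ (fun i => ?_) i
        · simp
        · simp only [Fin.cons_succ]
          field_simp
      have h3 : eval y p = 0 := by
        rw [h2, eval_smul_hom p n hp, h, mul_zero]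
      rw [h3, mul_zero]
  rcases mul_eq_zero.1 h1 with h2 | h2
  · exact absurd h2 (MvPolynomial.X_ne_zero 0)
  · exact h2

theorem l4a : Pool.Agent.W464.WLP.L4a := by
  intro K _ _ p hp hlat hinv
  have hinf : Infinite K := inferInstance
  -- the restriction to the line `x 0 = 0`
  set g : Polynomial K := aeval (![1, 0, Polynomial.X] : Fin 3 → Polynomial K) p with hg
  have hgdeg : g.natDegree ≤ 4 := by
    have := MvPolynomial.aeval_natDegree_le (m := 4) (n := 1) p hp.totalDegree_le
      (![1, 0, Polynomial.X] : Fin 3 → Polynomial K) (by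
        intro i
        fin_cases i
        · simp
        · simp
        · simp)
    simpa using this
  have hgev : ∀ u : K, g.eval u = eval (Fin.cons 1 ![0, u] : Fin 3 → K) p := by
    intro u
    rw [hg, ← Polynomial.coe_evalRingHom, MvPolynomial.aeval_def]
    rw [MvPolynomial.hom_eval₂]
    have h1 : ((Polynomial.evalRingHom u).comp (algebraMap K (Polynomial K))) = RingHom.id K := by
      ext a
      simp
    rw [h1, ← MvPolynomial.coe_eval₂Hom]
    rw [← MvPolynomial.eval₂_id]
    rw [MvPolynomial.coe_eval₂Hom]
    congr 1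
    funext i
    fin_cases i
    · simp
    · simp only
      exact Polynomial.eval_zero
    · simp only
      exact Polynomial.eval_X
  have hshift : ∀ a b : K, eval (Fin.cons 1 ![a, b] : Fin 3 → K) p = g.eval (b + a / 2) := by
    intro a b
    rw [hgev]
    have h1 := hinv ![a, b] a
    rw [← h1]
    have h2 : (![a, b] + a • ![-1, 1 / 2] : Fin 2 → K) = ![0, b + a / 2] := by
      funext i
      fin_cases i
      · simp
      · simp; ring
    rw [h2]
  have hz : ∀ a b : ℕ, a + b ≤ 3 → g.eval ((b : K) + (a : K) / 2) = 0 := by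
    intro a b hab
    rw [← hshift]
    have h1 := hlat ⟨![⟨a, by omega⟩, ⟨b, by omega⟩], by
      simp [Fin.sum_univ_two]; omega⟩
    rw [← h1]
    congr 2
    unfold Pool.Agent.W464.WLP.latW
    congr 1
    funext i
    fin_cases i
    · simp
    · simp
  have hg0 : g = 0 := by
    apply Polynomial.eq_zero_of_natDegree_lt_card_of_eval_eq_zero g
      (ι := Fin 5) (f := fun j : Fin 5 => ((j : ℕ) : K) / 2)
    · intro i j hij
      have h2 : (2 : K) ≠ 0 := two_ne_zero
      have h3 : ((i : ℕ) : K) = ((j : ℕ) : K) := by
        simp only at hij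
        field_simp at hij
        exact hij
      exact Fin.ext (Nat.cast_injective h3)
    · intro j
      have h0 := hz 0 0 (by norm_num)
      have h1 := hz 1 0 (by norm_num)
      have h2 := hz 0 1 (by norm_num)
      have h3 := hz 1 1 (by norm_num)
      have h4 := hz 0 2 (by norm_num)
      fin_cases j
      · simpa using h0
      · simpa using h1
      · have : ((2 : ℕ) : K) / 2 = ((1 : ℕ) : K) + ((0 : ℕ) : K) / 2 := by norm_num
        show g.eval (((2 : ℕ) : K) / 2) = 0
        rw [this]; exact h2
      · have : ((3 : ℕ) : K) / 2 = ((1 : ℕ) : K) + ((1 : ℕ) : K) / 2 := by norm_num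
        show g.eval (((3 : ℕ) : K) / 2) = 0
        rw [this]; exact h3
      · have : ((4 : ℕ) : K) / 2 = ((2 : ℕ) : K) + ((0 : ℕ) : K) / 2 := by norm_num
        show g.eval (((4 : ℕ) : K) / 2) = 0
        rw [this]; exact h4
    · rw [Fintype.card_fin]
      omega
  apply eq_zero_of_chart p hp
  intro x
  have h1 : x = ![x 0, x 1] := by
    funext i
    fin_cases i <;> rfl
  rw [h1, hshift, hg0, Polynomial.eval_zero]

end Pool.Agent.W880.WLP
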